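import Mathlib

/-!
# H33N, module A: definitions (pure algebra; see PROOF.md section 3)
-/

namespace Pool.Agent.Lib.H33N

noncomputable section

open scoped Classical in
/-- The tuples of natural numbers with sum `k`. -/
def comps (n k : ℕ) : Finset (Fin n → ℕ) :=
  (Fintype.piFinset fun _ : Fin n => Finset.range (k + 1)).filter fun g => ∑ i, g i = k

open scoped Classical in
/-- The horizontal strips of size `k` which can be added to `l`: `g i + l i ≤ l (i + 1)`. -/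
def hst (n k : ℕ) (l : Fin n → ℕ) : Finset (Fin n → ℕ) :=
  (Fintype.piFinset fun _ : Fin n => Finset.range (k + 1)).filter fun g =>
    ∑ i, g i = k ∧ ∀ i j : Fin n, (i : ℕ) + 1 = j → g i + l i ≤ l j

/-- The additive Pieri rule. -/
def PIa (n : ℕ) (h : ℕ → ℂ) (V : (Fin n → ℕ) → ℂ) : Prop :=
  ∀ (k : ℕ) (l : Fin n → ℕ), Monotone l → h k * V l = ∑ g ∈ hst n k l, V (g + l)

/-- The sign of a permutation as a complex number. -/
def sgn {n : ℕ} (σ : Equiv.Perm (Fin n)) : ℂ := (((Equiv.Perm.sign σ : ℤˣ) : ℤ) : ℂ)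

open scoped Classical in
/-- The alternating extension of `V`: if the `b i` are distinct and `σ` sorts them, `sgn σ * V (b (σ i) - i)`. -/
def Vt {n : ℕ} (V : (Fin n → ℕ) → ℂ) (b : Fin n → ℕ) : ℂ :=
  if Function.Injective b then sgn (Tuple.sort b) * V (fun i => b (Tuple.sort b i) - i) else 0

/-- `n (n - 1) / 2 = 0 + 1 + ... + (n - 1)`. -/
def tri (n : ℕ) : ℕ := ∑ i : Fin n, (i : ℕ)

/-- Chains `l 0 ∣ l 1 ∣ ...` of positive integers prime to `N`. -/
def IsCh (n N : ℕ) (l : Fin n → ℕ) : Prop :=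
  (∀ i, 0 < l i) ∧ (∀ i, (l i).Coprime N) ∧ ∀ i j : Fin n, i ≤ j → l i ∣ l j

open scoped Classical in
/-- The multiplicative strips: `∏ e i = r`, `e i * l i ∣ l (i + 1)`. -/
def strips (n r : ℕ) (l : Fin n → ℕ) : Finset (Fin n → ℕ) :=
  (Fintype.piFinset fun _ : Fin n => r.divisors).filter fun e =>
    ∏ i, e i = r ∧ ∀ i j : Fin n, (i : ℕ) + 1 = j → e i * l i ∣ l j

/-- The (multiplicative) Pieri rule `(PI)`. -/
def PI (n N : ℕ) (L : ℕ → ℂ) (V : (Fin n → ℕ) → ℂ) : Prop :=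
  ∀ r, 0 < r → r.Coprime N → ∀ l, IsCh n N l → L r * V l = ∑ e ∈ strips n r l, V (e * l)

open scoped Classical in
/-- The tuples with product `M`. -/
def facs (n M : ℕ) : Finset (Fin n → ℕ) :=
  (Fintype.piFinset fun _ : Fin n => M.divisors).filter fun r => ∏ i, r i = M

/-- `∑_{∏ r i = M} ∏ |L (r i)|`. -/
def Bd (n : ℕ) (L : ℕ → ℂ) (M : ℕ) : ℝ := ∑ r ∈ facs n M, ∏ i, ‖L (r i)‖

end

end Pool.Agent.Lib.H33N
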