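import Pool.Agent.Lib.H33N.SD

/-!
# Chunk S1: divisor bounds
-/

namespace Pool.Agent.Lib.H33N

noncomputable section

theorem s1_fac {K ε : ℝ} (hε : 0 < ε) (hK1 : 1 ≤ K) (hK2 : 1 ≤ K * (ε * Real.log 2)) {P : ℕ}
    (hP : (2 : ℝ) ^ (1 / ε) < P) (p v : ℕ) (hp : 2 ≤ p) :
    ((v : ℝ) + 1) ≤ (if p < P then K else 1) * ((p : ℝ) ^ ε) ^ v := by
  have hp' : (2 : ℝ) ≤ p := by exact_mod_cast hp
  have hp0 : (0 : ℝ) < p := by linarith
  have hv : (0 : ℝ) ≤ v := Nat.cast_nonneg v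
  split_ifs with h
  · -- Bernoulli
    have h1 : 1 + (v : ℝ) * (ε * Real.log 2) ≤ ((p : ℝ) ^ ε) ^ v := by
      have h2 : ((p : ℝ) ^ ε) ^ v = Real.exp ((v : ℝ) * (ε * Real.log p)) := by
        rw [Real.exp_nat_mul, Real.rpow_def_of_pos hp0, mul_comm (Real.log _)]
      have h3 : (v : ℝ) * (ε * Real.log 2) ≤ (v : ℝ) * (ε * Real.log p) := by
        refine mul_le_mul_of_nonneg_left (mul_le_mul_of_nonneg_left ?_ hε.le) hv
        exact Real.log_le_log (by norm_num) hp'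
      rw [h2]
      have h4 := Real.add_one_le_exp ((v : ℝ) * (ε * Real.log p))
      linarith
    have h5 : K * (1 + (v : ℝ) * (ε * Real.log 2)) ≤ K * ((p : ℝ) ^ ε) ^ v :=
      mul_le_mul_of_nonneg_left h1 (by linarith)
    nlinarith
  · have h1 : (2 : ℝ) ≤ (p : ℝ) ^ ε := by
      have h2 : (2 : ℝ) ^ (1 / ε) ≤ p := by
        have : (P : ℝ) ≤ p := by exact_mod_cast not_lt.1 h
        linarith
      have h3 := Real.rpow_le_rpow (by positivity) h2 hε.le
      rwa [← Real.rpow_mul (by norm_num), one_div, inv_mul_cancel₀ hε.ne', Real.rpow_one] at h3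
    rw [one_mul]
    have h4 : (2 : ℝ) ^ v ≤ ((p : ℝ) ^ ε) ^ v := pow_le_pow_left₀ (by norm_num) h1 v
    have h5 : ((v : ℝ) + 1) ≤ 2 ^ v := by
      have : v + 1 ≤ 2 ^ v := Nat.succ_le_of_lt Nat.lt_two_pow_self
      exact_mod_cast this
    linarith

/-- The divisor bound. `τ(m) / m ^ ε = ∏_p (v_p + 1) / p ^ (ε v_p)`; the factors with `p ^ ε ≥ 2` are at most `1` (`v + 1 ≤ 2 ^ v`), the others (finitely many primes) are at most `sup_v (v + 1) 2 ^ (-ε v)`, finite. -/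
theorem s1_div {ε : ℝ} (hε : 0 < ε) : ∃ C : ℝ, 1 ≤ C ∧ ∀ m : ℕ, 0 < m → (m.divisors.card : ℝ) ≤ C * (m : ℝ) ^ ε := by
  have hl : 0 < Real.log 2 := Real.log_pos (by norm_num)
  obtain ⟨K, hK1, hK2⟩ : ∃ K : ℝ, 1 ≤ K ∧ 1 ≤ K * (ε * Real.log 2) := by
    refine ⟨max 1 (1 / (ε * Real.log 2)), le_max_left _ _, ?_⟩
    have h := mul_le_mul_of_nonneg_right (le_max_right 1 (1 / (ε * Real.log 2))) (mul_pos hε hl).le
    have e : 1 / (ε * Real.log 2) * (ε * Real.log 2) = 1 := by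
      rw [one_div, inv_mul_cancel₀ (mul_pos hε hl).ne']
    rw [e] at h
    exact h
  obtain ⟨P, hP⟩ := exists_nat_gt ((2 : ℝ) ^ (1 / ε))
  refine ⟨K ^ P, one_le_pow₀ hK1, fun m hm => ?_⟩
  have h1 : (m.divisors.card : ℝ) = ∏ p ∈ m.primeFactors, ((m.factorization p : ℝ) + 1) := by
    rw [Nat.card_divisors hm.ne']
    push_cast
    rfl
  have h2 : (m : ℝ) ^ ε = ∏ p ∈ m.primeFactors, ((p : ℝ) ^ ε) ^ (m.factorization p) := by
    have e : (m : ℝ) = ∏ p ∈ m.primeFactors, (p : ℝ) ^ (m.factorization p) := by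
      conv_lhs => rw [← Nat.prod_factorization_pow_eq_self hm.ne']
      rw [Finsupp.prod, Nat.support_factorization]
      push_cast
      rfl
    rw [e, ← Real.finsetProd_rpow _ _ (fun p _ => by positivity)]
    refine Finset.prod_congr rfl fun p _ => ?_
    rw [← Real.rpow_natCast, ← Real.rpow_natCast, ← Real.rpow_mul (Nat.cast_nonneg p),
      ← Real.rpow_mul (Nat.cast_nonneg p), mul_comm]
  have h3 : ∏ p ∈ m.primeFactors, (if p < P then K else 1) ≤ K ^ P := by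
    rw [Finset.prod_ite, Finset.prod_const_one, mul_one, Finset.prod_const]
    refine pow_le_pow_right₀ hK1 ?_
    calc (m.primeFactors.filter fun p => p < P).card ≤ (Finset.range P).card := by
          refine Finset.card_le_card fun p hp => ?_
          rw [Finset.mem_filter] at hp
          exact Finset.mem_range.2 hp.2
      _ = P := Finset.card_range P
  calc (m.divisors.card : ℝ) = ∏ p ∈ m.primeFactors, ((m.factorization p : ℝ) + 1) := h1
    _ ≤ ∏ p ∈ m.primeFactors, ((if p < P then K else 1) * ((p : ℝ) ^ ε) ^ (m.factorization p)) :=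
        Finset.prod_le_prod (fun p _ => by positivity)
          fun p hp => s1_fac hε hK1 hK2 hP p _ (Nat.prime_of_mem_primeFactors hp).two_le
    _ = (∏ p ∈ m.primeFactors, (if p < P then K else 1)) * (m : ℝ) ^ ε := by
        rw [Finset.prod_mul_distrib, h2]
    _ ≤ K ^ P * (m : ℝ) ^ ε := mul_le_mul_of_nonneg_right h3 (by positivity)

theorem s1_two (m : ℕ) (hm : 0 < m) : 2 ^ m.primeFactors.card ≤ m.divisors.card := by
  rw [Nat.card_divisors hm.ne', ← Finset.prod_const]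
  refine Finset.prod_le_prod' fun p hp => ?_
  have h1 := Nat.prime_of_mem_primeFactors hp
  have h2 := Nat.dvd_of_mem_primeFactors hp
  have h3 := h1.factorization_pos_of_dvd hm.ne' h2
  omega

/-- `c ^ ω(m) ≤ C m ^ ε`: with `c ≤ 2 ^ k`: `2 ^ ω(m) ≤ τ(m)`, so `c ^ ω ≤ τ(m) ^ k`, and `s1_div` for `ε / (k + 1)`. -/
theorem s1_om {c ε : ℝ} (hc : 1 ≤ c) (hε : 0 < ε) :
    ∃ C : ℝ, 1 ≤ C ∧ ∀ m : ℕ, 0 < m → c ^ m.primeFactors.card ≤ C * (m : ℝ) ^ ε := by
  obtain ⟨k, hk⟩ := pow_unbounded_of_one_lt c (one_lt_two (α := ℝ))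
  have hk1 : (0 : ℝ) < (k : ℝ) + 1 := by positivity
  obtain ⟨C, hC1, hC⟩ := s1_div (div_pos hε hk1)
  refine ⟨C ^ k, one_le_pow₀ hC1, fun m hm => ?_⟩
  have hm1 : (1 : ℝ) ≤ m := by exact_mod_cast hm
  have h1 : (2 : ℝ) ^ m.primeFactors.card ≤ m.divisors.card := by exact_mod_cast s1_two m hm
  calc c ^ m.primeFactors.card ≤ (2 ^ k) ^ m.primeFactors.card :=
        pow_le_pow_left₀ (by linarith) hk.le _
    _ = (2 ^ m.primeFactors.card) ^ k := by rw [← pow_mul, ← pow_mul, mul_comm]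
    _ ≤ (C * (m : ℝ) ^ (ε / ((k : ℝ) + 1))) ^ k :=
        pow_le_pow_left₀ (by positivity) (h1.trans (hC m hm)) _
    _ = C ^ k * (m : ℝ) ^ (ε / ((k : ℝ) + 1) * k) := by
        rw [mul_pow, ← Real.rpow_natCast ((m : ℝ) ^ (ε / ((k : ℝ) + 1))) k,
          ← Real.rpow_mul (by positivity)]
    _ ≤ C ^ k * (m : ℝ) ^ ε := by
        refine mul_le_mul_of_nonneg_left (Real.rpow_le_rpow_of_exponent_le hm1 ?_) (by positivity)
        rw [div_mul_eq_mul_div, div_le_iff₀ hk1]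
        nlinarith

end

end Pool.Agent.Lib.H33N
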