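import Pool.Agent.Lib.H33N.AD

/-!
# H33N, module S: definitions (pure arithmetic; see PROOF.md section 3)
-/

namespace Pool.Agent.Lib.H33N

noncomputable section

/-- The hypotheses on the coefficients: `A 1 = 1`, the Pieri rule, and the behaviour under scalars. -/
structure Sys (n N : ℕ) (L : ℕ → ℂ) (A : (Fin n → ℕ) → ℂ) : Prop where
  one : A 1 = 1
  pi : PI n N L A
  sc : ∀ e, 0 < e → e.Coprime N → ∀ l, IsCh n N l → ‖A (fun i => e * l i)‖ = (e : ℝ) ^ tri n * ‖A l‖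

/-- `|A l|² |l| ^ (-(n-1) - s)`, `|l| = ∏ l i`. -/
def wA (n : ℕ) (A : (Fin n → ℕ) → ℂ) (s : ℝ) (l : Fin n → ℕ) : ENNReal :=
  ENNReal.ofReal (‖A l‖ ^ 2 * ((∏ i, l i : ℕ) : ℝ) ^ (-((n : ℝ) - 1) - s))

open scoped Classical in
/-- `∑_{(r,N)=1} |L r|² r ^ (-(n-1) - s)`. -/
def SS (n N : ℕ) (L : ℕ → ℂ) (s : ℝ) : ENNReal :=
  ∑' r : ℕ, if 0 < r ∧ r.Coprime N then ENNReal.ofReal (‖L r‖ ^ 2 * (r : ℝ) ^ (-((n : ℝ) - 1) - s)) else 0

open scoped Classical in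
/-- The sum over all chains. -/
def DA (n N : ℕ) (A : (Fin n → ℕ) → ℂ) (s : ℝ) : ENNReal :=
  ∑' l : Fin n → ℕ, if IsCh n N l then wA n A s l else 0

open scoped Classical in
/-- The sum over the chains with `l 0 = 1`. -/
def DD (n N : ℕ) (A : (Fin n → ℕ) → ℂ) (s : ℝ) : ENNReal :=
  ∑' l : Fin n → ℕ, if IsCh n N l ∧ ∀ i : Fin n, (i : ℕ) = 0 → l i = 1 then wA n A s l else 0

end

end Pool.Agent.Lib.H33N
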